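import Pool.Agent.R945.SJ.Abs

/-!
# From `A n + (2 n - 1)` to `A n`
-/

set_option autoImplicit false
set_option linter.unusedVariables false
set_option linter.unusedSectionVars false

namespace Pool.Agent.R945.SJ

open Filter Topology Pool.Agent.R956.K1

/-- every long interval `[n, n + δ √n]` meets `S` -/
def Gp (δ : ℝ) (S : Set ℕ) : Prop :=
  ∀ᶠ n : ℕ in atTop, ∃ k ∈ S, n ≤ k ∧ (k : ℝ) ≤ n + δ * √(n : ℝ)

/-- the gaps of `S` are `o(√(n log n))` -/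
def GpL (S : Set ℕ) : Prop :=
  ∀ δ : ℝ, 0 < δ → ∀ᶠ n : ℕ in atTop, ∃ k ∈ S, n ≤ k ∧ (k : ℝ) ≤ n + δ * √(n * Real.log n)

lemma shift_lim {θ : ℝ} (hθ : 1 ≤ θ) : ∃ e : ℝ, 0 ≤ e ∧
    Tendsto (fun n : ℕ => (2 * (n : ℝ) - 1) / (n : ℝ) ^ θ) atTop (𝓝 e) := by
  have key : ∀ᶠ n : ℕ in atTop, (2 - 1 / (n : ℝ)) * (n : ℝ) ^ (1 - θ) = (2 * (n : ℝ) - 1) / (n : ℝ) ^ θ := by
    filter_upwards [eventually_ge_atTop 1] with n hn
    have hn0 : (0 : ℝ) < n := by exact_mod_cast hn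
    rw [Real.rpow_sub hn0, Real.rpow_one]
    field_simp
  have h1 : Tendsto (fun n : ℕ => 2 - 1 / (n : ℝ)) atTop (𝓝 (2 - 0)) :=
    tendsto_const_nhds.sub tendsto_one_div_atTop_nhds_zero_nat
  rcases hθ.eq_or_lt with h | h
  · refine ⟨2, by norm_num, ?_⟩
    subst h
    rw [sub_zero] at h1
    refine h1.congr' ?_
    filter_upwards [key] with n hn
    rw [← hn]
    simp
  · refine ⟨0, le_rfl, ?_⟩
    have h2 : Tendsto (fun n : ℕ => (n : ℝ) ^ (1 - θ)) atTop (𝓝 0) := by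
      have h3 := (tendsto_rpow_neg_atTop (show 0 < θ - 1 by linarith)).comp
        (tendsto_natCast_atTop_atTop (R := ℝ))
      refine h3.congr fun n => ?_
      simp only [Function.comp]
      congr 1
      ring
    have h4 := h1.mul h2
    rw [mul_zero] at h4
    exact h4.congr' key

lemma area_ratio {A : ℕ → ℝ} (hA : ∀ n : ℕ, 2 ≤ n → (n : ℝ) / 2 ≤ A n) {s : ℕ → ℝ}
    (hs0 : ∀ᶠ n : ℕ in atTop, 1 ≤ s n) (hs : ∀ᶠ n : ℕ in atTop, s n ≤ √(n : ℝ))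
    (h : Tendsto (fun n : ℕ => ((A (n + 1) + (2 * ((n + 1 : ℕ) : ℝ) - 1)) /
      (A n + (2 * (n : ℝ) - 1)) - 1) * s n) atTop (𝓝 0)) :
    Tendsto (fun n : ℕ => (A (n + 1) / A n - 1) * s n) atTop (𝓝 0) := by
  have h1 : Tendsto (fun n : ℕ => 5 * |((A (n + 1) + (2 * ((n + 1 : ℕ) : ℝ) - 1)) /
      (A n + (2 * (n : ℝ) - 1)) - 1) * s n| + 4 * (√(n : ℝ))⁻¹) atTop (𝓝 (5 * |0| + 4 * 0)) := by
    refine ((h.abs).const_mul 5).add (Tendsto.const_mul 4 ?_)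
    exact (Real.tendsto_sqrt_atTop.comp tendsto_natCast_atTop_atTop).inv_tendsto_atTop
  rw [abs_zero, mul_zero, mul_zero, add_zero] at h1
  refine squeeze_zero_norm' ?_ h1
  filter_upwards [hs0, hs, eventually_ge_atTop 2] with n g0 g1 hn
  have hn' : (2 : ℝ) ≤ n := by exact_mod_cast hn
  have hn0 : (0 : ℝ) < n := by linarith
  have a1 := hA n hn
  have ha0 : 0 < A n := by linarith
  have hv0 : 0 < A n + (2 * (n : ℝ) - 1) := by linarith
  have hsq : 0 < √(n : ℝ) := Real.sqrt_pos.mpr hn0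
  obtain ⟨d, hd⟩ : ∃ d, d = (A (n + 1) + (2 * ((n + 1 : ℕ) : ℝ) - 1)) /
      (A n + (2 * (n : ℝ) - 1)) - 1 := ⟨_, rfl⟩
  rw [← hd, Real.norm_eq_abs]
  have e : A (n + 1) / A n - 1 = (A n + (2 * (n : ℝ) - 1)) / A n * d - 2 / A n := by
    rw [hd]
    push_cast
    field_simp
    ring
  have b1 : (A n + (2 * (n : ℝ) - 1)) / A n ≤ 5 := by
    rw [div_le_iff₀ ha0]
    linarith
  have b1' : 0 ≤ (A n + (2 * (n : ℝ) - 1)) / A n := by positivity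
  have b2 : 2 / A n * s n ≤ 4 * (√(n : ℝ))⁻¹ := by
    have c1 : 2 / A n ≤ 4 / n := by
      rw [div_le_div_iff₀ ha0 hn0]
      linarith
    calc 2 / A n * s n ≤ 4 / n * √(n : ℝ) := by
          apply mul_le_mul c1 g1 (by linarith) (by positivity)
      _ = 4 * (√(n : ℝ))⁻¹ := by
          have : (n : ℝ) = √(n : ℝ) * √(n : ℝ) := (Real.mul_self_sqrt hn0.le).symm
          rw [div_mul_eq_mul_div, div_eq_iff hn0.ne']
          nth_rewrite 3 [this]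
          field_simp
  rw [e, sub_mul]
  refine (abs_sub _ _).trans (add_le_add ?_ ?_)
  · rw [mul_assoc, abs_mul, abs_of_nonneg b1']
    exact mul_le_mul_of_nonneg_right b1 (abs_nonneg _)
  · rw [abs_of_nonneg (by positivity)]
    exact b2

lemma sqrt_scale : ∀ᶠ n : ℕ in atTop, 1 ≤ √(n : ℝ) := by
  filter_upwards [eventually_ge_atTop 1] with n hn
  rw [Real.one_le_sqrt]
  exact_mod_cast hn

lemma sqrtlog_scale : ∀ᶠ n : ℕ in atTop, 1 ≤ √((n : ℝ) / Real.log n) := by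
  filter_upwards [eventually_ge_atTop 3] with n hn
  have hl := log_scale hn
  rw [Real.one_le_sqrt, one_le_div (by linarith)]
  have hn0 : (0 : ℝ) < n := by exact_mod_cast (show 0 < n by omega)
  have := Real.log_le_sub_one_of_pos hn0
  linarith

lemma sqrtlog_le : ∀ᶠ n : ℕ in atTop, √((n : ℝ) / Real.log n) ≤ √(n : ℝ) := by
  filter_upwards [eventually_ge_atTop 3] with n hn
  have hl := log_scale hn
  apply Real.sqrt_le_sqrt
  exact div_le_self (Nat.cast_nonneg _) hl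

section

variable {y0 y1 A : ℕ → ℝ} {D0 D1 : ℝ} (K0 : Kc y0 D0) (K1 : Kc y1 D1)
  (hA : ∀ n : ℕ, 2 ≤ n → (n : ℝ) / 2 ≤ A n)
  (hV : ∀ᶠ n : ℕ in atTop, y1 n = y0 n * (A n + (2 * (n : ℝ) - 1)))

include K0 K1 hA hV

theorem area_form {S : Set ℕ} (hS : ∀ δ : ℝ, 0 < δ → Gp δ S)
    {β θ B c : ℝ} (hB : 0 < B) (hc : 0 < c) (hθ : 1 ≤ θ)
    (h0 : Tendsto (fun n : ℕ => y0 n / (n : ℝ) ^ β) (atTop ⊓ 𝓟 S) (𝓝 B))
    (h1 : Tendsto (fun n : ℕ => A n / (n : ℝ) ^ θ) (atTop ⊓ 𝓟 S) (𝓝 c)) :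
    Tendsto (fun n : ℕ => y0 n / (n : ℝ) ^ β) atTop (𝓝 B) ∧
    Tendsto (fun n : ℕ => A n / (n : ℝ) ^ θ) atTop (𝓝 c) ∧
    Tendsto (fun n : ℕ => (y0 (n + 1) / y0 n - 1) * √(n : ℝ)) atTop (𝓝 0) ∧
    Tendsto (fun n : ℕ => (A (n + 1) / A n - 1) * √(n : ℝ)) atTop (𝓝 0) := by
  obtain ⟨e, he, hlim⟩ := shift_lim hθ
  have g1 : Tendsto (fun n : ℕ => (A n + (2 * (n : ℝ) - 1)) / (n : ℝ) ^ θ) (atTop ⊓ 𝓟 S)
      (𝓝 (c + e)) := by
    refine (h1.add (hlim.mono_left inf_le_left)).congr fun n => ?_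
    rw [add_div]
  obtain ⟨f0, f1, f2, f3⟩ := form K0 K1 hV hS hB (show 0 < c + e by linarith) h0 g1
  refine ⟨f0, ?_, f2, area_ratio hA sqrt_scale (Eventually.of_forall fun n => le_rfl) f3⟩
  have h := f1.sub hlim
  rw [add_sub_cancel_right] at h
  refine h.congr fun n => ?_
  rw [add_div, add_sub_cancel_right]

lemma area_log : Tendsto (fun n : ℕ => Real.log (A n + (2 * (n : ℝ) - 1)) / Real.log n -
    Real.log (A n) / Real.log n) atTop (𝓝 0) := by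
  have h1 : Tendsto (fun n : ℕ => Real.log 5 * (Real.log (n : ℝ))⁻¹) atTop (𝓝 (Real.log 5 * 0)) := by
    refine Tendsto.const_mul _ ?_
    exact (Real.tendsto_log_atTop.comp tendsto_natCast_atTop_atTop).inv_tendsto_atTop
  rw [mul_zero] at h1
  refine squeeze_zero_norm' ?_ h1
  filter_upwards [eventually_ge_atTop 3] with n hn
  have hl := log_scale hn
  have hn' : (3 : ℝ) ≤ n := by exact_mod_cast hn
  have a1 := hA n (by omega)
  have ha0 : 0 < A n := by linarith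
  have c1 : Real.log (A n) ≤ Real.log (A n + (2 * (n : ℝ) - 1)) :=
    Real.log_le_log ha0 (by linarith)
  have c2 : Real.log (A n + (2 * (n : ℝ) - 1)) ≤ Real.log 5 + Real.log (A n) := by
    rw [← Real.log_mul (by norm_num) ha0.ne']
    exact Real.log_le_log (by linarith) (by linarith)
  rw [← sub_div, Real.norm_eq_abs, abs_div, abs_of_nonneg (show 0 ≤ Real.log (n : ℝ) by linarith),
    abs_of_nonneg (by linarith), div_eq_mul_inv]
  apply mul_le_mul_of_nonneg_right _ (by positivity)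
  linarith

theorem area_expo {S : Set ℕ} (hS : GpL S) {β θ : ℝ}
    (h0 : Tendsto (fun n : ℕ => Real.log (y0 n) / Real.log n) (atTop ⊓ 𝓟 S) (𝓝 β))
    (h1 : Tendsto (fun n : ℕ => Real.log (A n) / Real.log n) (atTop ⊓ 𝓟 S) (𝓝 θ)) :
    Tendsto (fun n : ℕ => Real.log (y0 n) / Real.log n) atTop (𝓝 β) ∧
    Tendsto (fun n : ℕ => Real.log (A n) / Real.log n) atTop (𝓝 θ) ∧
    Tendsto (fun n : ℕ => (y0 (n + 1) / y0 n - 1) * √((n : ℝ) / Real.log n)) atTop (𝓝 0) ∧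
    Tendsto (fun n : ℕ => (A (n + 1) / A n - 1) * √((n : ℝ) / Real.log n)) atTop (𝓝 0) := by
  have hl := area_log K0 K1 hA hV
  have g1 : Tendsto (fun n : ℕ => Real.log (A n + (2 * (n : ℝ) - 1)) / Real.log n) (atTop ⊓ 𝓟 S)
      (𝓝 θ) := by
    have h := (hl.mono_left (inf_le_left (b := 𝓟 S))).add h1
    rw [zero_add] at h
    refine h.congr fun n => ?_
    rw [sub_add_cancel]
  obtain ⟨f0, f1, f2, f3⟩ := expo K0 K1 hV hS h0 g1
  refine ⟨f0, ?_, f2, area_ratio hA sqrtlog_scale sqrtlog_le f3⟩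
  have h := f1.sub hl
  rw [sub_zero] at h
  refine h.congr fun n => ?_
  rw [sub_sub_cancel]

theorem area_bounds {S : Set ℕ} {δ : ℝ} (hδ : 0 < δ) (hS : Gp δ S)
    {β θ b B c C : ℝ} (hb : 0 < b) (hc : 0 < c)
    (h0 : ∀ᶠ n : ℕ in atTop, n ∈ S → b ≤ y0 n / (n : ℝ) ^ β ∧ y0 n / (n : ℝ) ^ β ≤ B)
    (h1 : ∀ᶠ n : ℕ in atTop, n ∈ S → c ≤ A n / (n : ℝ) ^ θ ∧ A n / (n : ℝ) ^ θ ≤ C) :
    ∃ b' B' c' C' : ℝ, 0 < b' ∧ 0 < c' ∧ ∀ᶠ n : ℕ in atTop,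
      b' ≤ y0 n / (n : ℝ) ^ β ∧ y0 n / (n : ℝ) ^ β ≤ B' ∧
      c' ≤ A n / (n : ℝ) ^ θ ∧ A n / (n : ℝ) ^ θ ≤ C' := by
  have hVA : ∀ᶠ n : ℕ in atTop, A n / (n : ℝ) ^ θ ≤ (A n + (2 * (n : ℝ) - 1)) / (n : ℝ) ^ θ ∧
      (A n + (2 * (n : ℝ) - 1)) / (n : ℝ) ^ θ ≤ 5 * (A n / (n : ℝ) ^ θ) := by
    filter_upwards [eventually_ge_atTop 2] with n hn
    have hn' : (2 : ℝ) ≤ n := by exact_mod_cast hn
    have a1 := hA n hn
    have hp : 0 < (n : ℝ) ^ θ := Real.rpow_pos_of_pos (by linarith) _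
    constructor
    · exact div_le_div_of_nonneg_right (by linarith) hp.le
    · rw [mul_div_assoc']
      exact div_le_div_of_nonneg_right (by linarith) hp.le
  obtain ⟨b', B', c', C', hb', hc', h⟩ := bounds K0 K1 hV hδ hS hb hc (C := 5 * C) h0 (by
    filter_upwards [h1, hVA] with n g1 g2 hn
    obtain ⟨g3, g4⟩ := g1 hn
    exact ⟨g3.trans g2.1, g2.2.trans (by linarith)⟩)
  refine ⟨b', B', c' / 5, C', hb', by positivity, ?_⟩
  filter_upwards [h, hVA] with n g1 g2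
  exact ⟨g1.1, g1.2.1, by linarith [g1.2.2.1, g2.2], g2.1.trans g1.2.2.2⟩

end

section

variable {y0 y1 W : ℕ → ℝ} {D0 D1 : ℝ} (K0 : Kc y0 D0) (K1 : Kc y1 D1)
  (hV : ∀ᶠ n : ℕ in atTop, y1 n = y0 n * (2 * W n))

include K0 K1 hV

lemma kc_half : Kc (fun n => y1 n / 2) D1 ∧ ∀ᶠ n : ℕ in atTop, y1 n / 2 = y0 n * W n := by
  refine ⟨⟨fun n => div_nonneg (K1.nonneg n) (by norm_num), ?_, K1.D0, ?_⟩, ?_⟩
  · filter_upwards [K1.pos] with n h
    positivity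
  · filter_upwards [K1.kes] with n h
    have e : y1 n / 2 * (y1 (n + 2) / 2) * (1 + D1 / n) = (y1 n * y1 (n + 2) * (1 + D1 / n)) / 4 := by
      ring
    rw [e, div_pow]
    norm_num
    linarith
  · filter_upwards [hV] with n h
    rw [h]
    ring

end

end Pool.Agent.R945.SJ
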