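import Pool.Agent.R956.K2

/-!
# Two sequences with Kesten's inequality: the quotient
-/

set_option autoImplicit false
set_option linter.unusedVariables false

namespace Pool.Agent.R945.SJ

open Filter Topology Pool.Agent.R956.K1

variable {y0 y1 V : ℕ → ℝ} {D0 D1 : ℝ}

lemma quot_small {a b s : ℕ → ℝ} (hs : ∀ᶠ n in atTop, 1 ≤ s n)
    (ha : Tendsto (fun n => a n * s n) atTop (𝓝 0))
    (hb : Tendsto (fun n => b n * s n) atTop (𝓝 0)) :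
    Tendsto (fun n => ((1 + a n) / (1 + b n) - 1) * s n) atTop (𝓝 0) := by
  have hb0 : Tendsto b atTop (𝓝 0) := by
    refine squeeze_zero_norm' ?_ (tendsto_norm_zero.comp hb)
    filter_upwards [hs] with n hn
    simp only [Function.comp, norm_mul]
    have : (1 : ℝ) ≤ ‖s n‖ := hn.trans (le_abs_self _)
    exact le_mul_of_one_le_right (norm_nonneg _) this
  have h1 : Tendsto (fun n => 1 + b n) atTop (𝓝 1) := by
    simpa using hb0.const_add 1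
  have h2 : Tendsto (fun n => (a n * s n - b n * s n) / (1 + b n)) atTop (𝓝 ((0 - 0) / 1)) :=
    (ha.sub hb).div h1 one_ne_zero
  rw [sub_zero, zero_div] at h2
  refine h2.congr' ?_
  filter_upwards [h1.eventually_const_lt (show (0 : ℝ) < 1 by norm_num)] with n hn
  have hn' : 1 + b n ≠ 0 := ne_of_gt hn
  field_simp
  ring

lemma V_pos (K0 : Kc y0 D0) (K1 : Kc y1 D1) (hV : ∀ᶠ n in atTop, y1 n = y0 n * V n) :
    ∀ᶠ n in atTop, 0 < V n := by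
  filter_upwards [K0.pos, K1.pos, hV] with n h0 h1 h2
  rw [h2] at h1
  exact (mul_pos_iff_of_pos_left h0).mp h1

lemma V_ratio (K0 : Kc y0 D0) (K1 : Kc y1 D1) (hV : ∀ᶠ n in atTop, y1 n = y0 n * V n)
    {s : ℕ → ℝ} (hs : ∀ᶠ n in atTop, 1 ≤ s n)
    (h0 : Tendsto (fun n => (y0 (n + 1) / y0 n - 1) * s n) atTop (𝓝 0))
    (h1 : Tendsto (fun n => (y1 (n + 1) / y1 n - 1) * s n) atTop (𝓝 0)) :
    Tendsto (fun n => (V (n + 1) / V n - 1) * s n) atTop (𝓝 0) := by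
  have h := quot_small hs h1 h0
  refine h.congr' ?_
  have e1 : ∀ᶠ k : ℕ in atTop, 0 < y0 (k + 1) := (tendsto_add_atTop_nat 1).eventually K0.pos
  have e2 : ∀ᶠ k : ℕ in atTop, 0 < V (k + 1) := (tendsto_add_atTop_nat 1).eventually (V_pos K0 K1 hV)
  have e3 : ∀ᶠ k : ℕ in atTop, y1 (k + 1) = y0 (k + 1) * V (k + 1) :=
    (tendsto_add_atTop_nat 1).eventually hV
  filter_upwards [K0.pos, V_pos K0 K1 hV, hV, e1, e2, e3] with n g1 g2 g3 g4 g5 g6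
  rw [g3, g6]
  congr 2
  rw [add_sub_cancel, add_sub_cancel]
  field_simp

/-- **asymptotic forms along gaps `o(√n)`** -/
theorem form (K0 : Kc y0 D0) (K1 : Kc y1 D1) (hV : ∀ᶠ n in atTop, y1 n = y0 n * V n)
    {S : Set ℕ}
    (hS : ∀ δ : ℝ, 0 < δ → ∀ᶠ n : ℕ in atTop, ∃ k ∈ S, n ≤ k ∧ (k : ℝ) ≤ n + δ * √(n : ℝ))
    {β θ B c : ℝ} (hB : 0 < B) (hc : 0 < c)
    (h0 : Tendsto (fun n : ℕ => y0 n / (n : ℝ) ^ β) (atTop ⊓ 𝓟 S) (𝓝 B))
    (h1 : Tendsto (fun n : ℕ => V n / (n : ℝ) ^ θ) (atTop ⊓ 𝓟 S) (𝓝 c)) :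
    Tendsto (fun n : ℕ => y0 n / (n : ℝ) ^ β) atTop (𝓝 B) ∧
    Tendsto (fun n : ℕ => V n / (n : ℝ) ^ θ) atTop (𝓝 c) ∧
    Tendsto (fun n : ℕ => (y0 (n + 1) / y0 n - 1) * √(n : ℝ)) atTop (𝓝 0) ∧
    Tendsto (fun n : ℕ => (V (n + 1) / V n - 1) * √(n : ℝ)) atTop (𝓝 0) := by
  have f0 := K0.form hS hB h0
  have key : ∀ᶠ n : ℕ in atTop, y0 n / (n : ℝ) ^ β * (V n / (n : ℝ) ^ θ) = y1 n / (n : ℝ) ^ (β + θ) := by
    filter_upwards [hV, eventually_ge_atTop 1] with n h hn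
    have hn0 : (0 : ℝ) < n := by exact_mod_cast hn
    rw [h, Real.rpow_add hn0, div_mul_div_comm]
  have g1 : Tendsto (fun n : ℕ => y1 n / (n : ℝ) ^ (β + θ)) (atTop ⊓ 𝓟 S) (𝓝 (B * c)) :=
    (h0.mul h1).congr' (key.filter_mono inf_le_left)
  have f1 := K1.form hS (mul_pos hB hc) g1
  have f2 : Tendsto (fun n : ℕ => V n / (n : ℝ) ^ θ) atTop (𝓝 c) := by
    have h := f1.div f0 hB.ne'
    rw [mul_div_cancel_left₀ _ hB.ne'] at h
    refine h.congr' ?_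
    filter_upwards [key, K0.pos, eventually_ge_atTop 1] with n h h3 hn
    rw [Pi.div_apply]
    have hn0 : (0 : ℝ) < n := by exact_mod_cast hn
    have hp : 0 < y0 n / (n : ℝ) ^ β := div_pos h3 (Real.rpow_pos_of_pos hn0 _)
    rw [← h, mul_div_cancel_left₀ _ hp.ne']
  have hs : ∀ᶠ n : ℕ in atTop, 1 ≤ √(n : ℝ) := by
    filter_upwards [eventually_ge_atTop 1] with n hn
    rw [Real.one_le_sqrt]
    exact_mod_cast hn
  have r0 := K0.ratio_form hB f0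
  have r1 := K1.ratio_form (mul_pos hB hc) f1
  exact ⟨f0, f2, r0, V_ratio K0 K1 hV hs r0 r1⟩

lemma log_mul_ev (K0 : Kc y0 D0) (K1 : Kc y1 D1) (hV : ∀ᶠ n in atTop, y1 n = y0 n * V n) :
    ∀ᶠ n : ℕ in atTop, Real.log (y0 n) / Real.log n + Real.log (V n) / Real.log n =
      Real.log (y1 n) / Real.log n := by
  filter_upwards [hV, K0.pos, V_pos K0 K1 hV] with n h h1 h2
  rw [h, Real.log_mul h1.ne' h2.ne', add_div]

/-- **exponents along gaps `o(√(n log n))`** -/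
theorem expo (K0 : Kc y0 D0) (K1 : Kc y1 D1) (hV : ∀ᶠ n in atTop, y1 n = y0 n * V n)
    {S : Set ℕ}
    (hS : ∀ δ : ℝ, 0 < δ → ∀ᶠ n : ℕ in atTop, ∃ k ∈ S, n ≤ k ∧
      (k : ℝ) ≤ n + δ * √(n * Real.log n)) {β θ : ℝ}
    (h0 : Tendsto (fun n : ℕ => Real.log (y0 n) / Real.log n) (atTop ⊓ 𝓟 S) (𝓝 β))
    (h1 : Tendsto (fun n : ℕ => Real.log (V n) / Real.log n) (atTop ⊓ 𝓟 S) (𝓝 θ)) :
    Tendsto (fun n : ℕ => Real.log (y0 n) / Real.log n) atTop (𝓝 β) ∧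
    Tendsto (fun n : ℕ => Real.log (V n) / Real.log n) atTop (𝓝 θ) ∧
    Tendsto (fun n : ℕ => (y0 (n + 1) / y0 n - 1) * √((n : ℝ) / Real.log n)) atTop (𝓝 0) ∧
    Tendsto (fun n : ℕ => (V (n + 1) / V n - 1) * √((n : ℝ) / Real.log n)) atTop (𝓝 0) := by
  have f0 := K0.expo hS h0
  have g1 : Tendsto (fun n : ℕ => Real.log (y1 n) / Real.log n) (atTop ⊓ 𝓟 S) (𝓝 (β + θ)) :=
    (h0.add h1).congr' ((log_mul_ev K0 K1 hV).filter_mono inf_le_left)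
  have f1 := K1.expo hS g1
  have f2 : Tendsto (fun n : ℕ => Real.log (V n) / Real.log n) atTop (𝓝 θ) := by
    have h := f1.sub f0
    rw [add_sub_cancel_left] at h
    refine h.congr' ?_
    filter_upwards [log_mul_ev K0 K1 hV] with n h
    simp only [← h, add_sub_cancel_left]
  have hs : ∀ᶠ n : ℕ in atTop, 1 ≤ √((n : ℝ) / Real.log n) := by
    filter_upwards [eventually_ge_atTop 3] with n hn
    have hl := log_scale hn
    rw [Real.one_le_sqrt, one_le_div (by linarith)]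
    have hn0 : (0 : ℝ) < n := by exact_mod_cast (show 0 < n by omega)
    have := Real.log_le_sub_one_of_pos hn0
    linarith
  have r0 := K0.ratio_expo f0
  have r1 := K1.ratio_expo f1
  exact ⟨f0, f2, r0, V_ratio K0 K1 hV hs r0 r1⟩

/-- **two-sided bounds along gaps `O(√n)`** -/
theorem bounds (K0 : Kc y0 D0) (K1 : Kc y1 D1) (hV : ∀ᶠ n in atTop, y1 n = y0 n * V n)
    {S : Set ℕ} {δ : ℝ} (hδ : 0 < δ)
    (hS : ∀ᶠ n : ℕ in atTop, ∃ k ∈ S, n ≤ k ∧ (k : ℝ) ≤ n + δ * √(n : ℝ))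
    {β θ b B c C : ℝ} (hb : 0 < b) (hc : 0 < c)
    (h0 : ∀ᶠ n : ℕ in atTop, n ∈ S → b ≤ y0 n / (n : ℝ) ^ β ∧ y0 n / (n : ℝ) ^ β ≤ B)
    (h1 : ∀ᶠ n : ℕ in atTop, n ∈ S → c ≤ V n / (n : ℝ) ^ θ ∧ V n / (n : ℝ) ^ θ ≤ C) :
    ∃ b' B' c' C' : ℝ, 0 < b' ∧ 0 < c' ∧ ∀ᶠ n : ℕ in atTop,
      b' ≤ y0 n / (n : ℝ) ^ β ∧ y0 n / (n : ℝ) ^ β ≤ B' ∧
      c' ≤ V n / (n : ℝ) ^ θ ∧ V n / (n : ℝ) ^ θ ≤ C' := by
  have key : ∀ᶠ n : ℕ in atTop, y0 n / (n : ℝ) ^ β * (V n / (n : ℝ) ^ θ) = y1 n / (n : ℝ) ^ (β + θ) := by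
    filter_upwards [hV, eventually_ge_atTop 1] with n h hn
    have hn0 : (0 : ℝ) < n := by exact_mod_cast hn
    rw [h, Real.rpow_add hn0, div_mul_div_comm]
  obtain ⟨b', B', hb', hB', g0⟩ := K0.bounds hδ hS hb h0
  obtain ⟨c', C', hc', hC', g1⟩ := K1.bounds (A := b * c) (B := B * C) hδ hS (mul_pos hb hc) (a := β + θ) (by
    filter_upwards [h0, h1, key] with n i0 i1 i2 hn
    obtain ⟨a1, a2⟩ := i0 hn
    obtain ⟨a3, a4⟩ := i1 hn
    rw [← i2]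
    constructor
    · exact mul_le_mul a1 a3 hc.le (hb.le.trans a1)
    · exact mul_le_mul a2 a4 (hc.le.trans a3) ((hb.le.trans a1).trans a2))
  refine ⟨b', B', c' / B', C' / b', hb', by positivity, ?_⟩
  filter_upwards [g0, g1, key] with n i0 i1 i2
  obtain ⟨a1, a2⟩ := i0
  obtain ⟨a3, a4⟩ := i1
  rw [← i2] at a3 a4
  have hp : 0 < y0 n / (n : ℝ) ^ β := hb'.trans_le a1
  refine ⟨a1, a2, ?_, ?_⟩
  · rw [div_le_iff₀ hB']
    have hv : 0 < V n / (n : ℝ) ^ θ := by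
      have := hc'.trans_le a3
      exact (mul_pos_iff_of_pos_left hp).mp this
    calc c' ≤ _ := a3
      _ ≤ B' * (V n / (n : ℝ) ^ θ) := mul_le_mul_of_nonneg_right a2 hv.le
      _ = _ := mul_comm _ _
  · rw [le_div_iff₀ hb']
    have hv : 0 < V n / (n : ℝ) ^ θ := by
      have := hc'.trans_le a3
      exact (mul_pos_iff_of_pos_left hp).mp this
    calc V n / (n : ℝ) ^ θ * b' = b' * (V n / (n : ℝ) ^ θ) := mul_comm _ _
      _ ≤ y0 n / (n : ℝ) ^ β * (V n / (n : ℝ) ^ θ) := mul_le_mul_of_nonneg_right a1 hv.le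
      _ ≤ C' := a4

end Pool.Agent.R945.SJ
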