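import Pool.Agent.R945.SJ.Abs
import Pool.Agent.H739K.All2

/-!
# Weighted polygon counts satisfy Kesten's inequality
-/

set_option autoImplicit false
set_option linter.unusedVariables false

namespace Pool.Agent.R945.SJ

open Finset Pool.Agent.H976R2 Pool.Agent.H924P Pool.Agent.H739K Filter Topology
open Pool.Agent.R956.K1
open scoped Classical

lemma rt_tendsto : Tendsto rt atTop (𝓝 0) := by
  have h1 : Filter.Tendsto (fun x : ℝ => (Real.log x) ^ 9 / x) Filter.atTop (nhds 0) :=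
    (Real.isLittleO_pow_log_id_atTop (n := 9)).tendsto_div_nhds_zero
  have h2 := h1.comp (tendsto_natCast_atTop_atTop (R := ℝ))
  have h3 := (Real.continuous_sqrt.tendsto 0).comp h2
  rw [Real.sqrt_zero] at h3
  exact h3

lemma card_pos' {n : ℕ} (hn : 3 ≤ n) (hodd : n % 2 = 1) : 0 < ((KP n).card : ℝ) := by
  have h := card_KP_pos (N := (n + 1) / 2) (by omega)
  rwa [show 2 * ((n + 1) / 2) - 1 = n by omega] at h

/-- weighted polygon counts -/
theorem kc {L : ℝ} (hL : 0 ≤ L) {φ : List Dir → ℝ} (hφ : ∀ m, 3 ≤ m → Nice L m φ)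
    (hφ0 : ∀ w, 0 ≤ φ w) :
    ∃ D, Kc (fun N => mm φ (2 * N - 1) / H981.mu ^ (2 * N)) D := by
  obtain ⟨D, hD, hr⟩ := RATIO_proof bnd L hL
  obtain ⟨C, hC⟩ := main' L hL
  have hmu : 2.43 ≤ H981.mu := bnd.1
  have hmu0 : (0 : ℝ) < H981.mu := by linarith
  have hpos : ∀ n : ℕ, 3 ≤ n → n % 2 = 1 → 0 < mm φ n := fun n h1 h2 =>
    (card_pos' h1 h2).trans_le (RATIO.card_le_mm (hφ n h1) le_rfl (by omega))
  have ev : ∀ᶠ n : ℕ in atTop, C * rt n < 1 / 2 := by
    have h := rt_tendsto.const_mul C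
    rw [mul_zero] at h
    exact h.eventually_lt_const (by norm_num)
  obtain ⟨n0, hn0⟩ := eventually_atTop.1 ev
  have hstep : ∀ n : ℕ, 3 ≤ n → n0 ≤ n → n % 2 = 1 → mm φ n ≤ mm φ (n + 2) := by
    intro n h3 h0 hodd
    have h1 := hC n φ h3 hodd (fun m hm _ _ => hφ m hm)
    have h2 := hn0 n h0
    have h4 := (abs_le.1 (h1.trans h2.le)).1
    have hp := hpos n h3 hodd
    have h5 : 1 / 2 ≤ mm φ (n + 2) / (H981.mu ^ 2 * mm φ n) := by linarith
    rw [le_div_iff₀ (by positivity)] at h5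
    have h6 : (2 : ℝ) ≤ H981.mu ^ 2 := by nlinarith
    nlinarith
  refine ⟨D, ⟨?_, ?_, hD, ?_⟩⟩
  · intro N
    exact div_nonneg (Finset.sum_nonneg fun w _ => hφ0 w) (by positivity)
  · filter_upwards [eventually_ge_atTop 2] with N hN
    exact div_pos (hpos _ (by omega) (by omega)) (by positivity)
  · filter_upwards [eventually_ge_atTop (n0 + 2)] with N hN
    obtain ⟨n, hn⟩ : ∃ n, n = 2 * N - 1 := ⟨_, rfl⟩
    have e1 : 2 * (N + 1) - 1 = n + 2 := by omega
    have e2 : 2 * (N + 2) - 1 = n + 4 := by omega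
    rw [e1, e2, ← hn]
    have h3 : 3 ≤ n := by omega
    have hodd : n % 2 = 1 := by omega
    have h := hr n φ h3 hodd (hφ n h3)
    have s1 := hstep n h3 (by omega) hodd
    have s2 := hstep (n + 2) (by omega) (by omega) (by omega)
    have hp := hpos n h3 hodd
    have hN0 : (0 : ℝ) < N := by exact_mod_cast (show 0 < N by omega)
    have hNn : (N : ℝ) ≤ n := by exact_mod_cast (show N ≤ n by omega)
    have g1 : D / n * mm φ n ^ 2 ≤ D / N * (mm φ n * mm φ (n + 4)) := by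
      have a1 : D / n ≤ D / N := div_le_div_of_nonneg_left hD hN0 hNn
      have a2 : mm φ n ^ 2 ≤ mm φ n * mm φ (n + 4) := by
        rw [pow_two]
        exact mul_le_mul_of_nonneg_left (s1.trans s2) hp.le
      exact mul_le_mul a1 a2 (by positivity) (by positivity)
    have g2 : mm φ (n + 2) ^ 2 ≤ mm φ n * mm φ (n + 4) * (1 + D / N) := by
      linarith
    have e3 : (mm φ (n + 2) / H981.mu ^ (2 * (N + 1))) ^ 2 =
        mm φ (n + 2) ^ 2 / (H981.mu ^ (2 * N) * H981.mu ^ (2 * (N + 2))) := by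
      rw [div_pow, ← pow_mul, ← pow_add]; congr 2; ring
    have e4 : mm φ n / H981.mu ^ (2 * N) * (mm φ (n + 4) / H981.mu ^ (2 * (N + 2))) * (1 + D / N) =
        mm φ n * mm φ (n + 4) * (1 + D / N) / (H981.mu ^ (2 * N) * H981.mu ^ (2 * (N + 2))) := by
      field_simp
    rw [e3, e4]
    exact div_le_div_of_nonneg_right g2 (by positivity)

lemma kc_congr {y y' : ℕ → ℝ} {D : ℝ} (K : Kc y D) (h : ∀ᶠ n in atTop, y n = y' n)
    (h0 : ∀ n, 0 ≤ y' n) : Kc y' D := by
  have h1 : ∀ᶠ n : ℕ in atTop, y (n + 1) = y' (n + 1) := (tendsto_add_atTop_nat 1).eventually h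
  have h2 : ∀ᶠ n : ℕ in atTop, y (n + 2) = y' (n + 2) := (tendsto_add_atTop_nat 2).eventually h
  refine ⟨h0, ?_, K.D0, ?_⟩
  · filter_upwards [K.pos, h] with n a b
    rwa [← b]
  · filter_upwards [K.kes, h, h1, h2] with n a b c d
    rwa [← b, ← c, ← d]

/-- number of rooted oriented polygons of perimeter `2 N`, normalised -/
noncomputable def u (N : ℕ) : ℝ :=
  ({f : ZMod (2 * N) → ℤ × ℤ | IsLoop (2 * N) f}.ncard : ℝ) / H981.mu ^ (2 * N)

lemma u_nonneg (N : ℕ) : 0 ≤ u N :=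
  div_nonneg (Nat.cast_nonneg _) (pow_nonneg H981.mu_pos.le _)

lemma u_eq {N : ℕ} (hN : 2 ≤ N) : u N = ((KP (2 * N - 1)).card : ℝ) / H981.mu ^ (2 * N) := by
  unfold u
  rw [(CONV_proof N hN).2.1]

theorem kc_u : ∃ D, Kc u D := by
  obtain ⟨D, K⟩ := kc (L := 0) le_rfl (φ := fun _ => 1) (fun m _ => F0_nice_one m)
    (fun _ => zero_le_one)
  refine ⟨D, kc_congr K ?_ u_nonneg⟩
  filter_upwards [eventually_ge_atTop 2] with N hN
  rw [F0_mm_one, u_eq hN]

theorem kc_area : ∃ D, ∃ y : ℕ → ℝ, Kc y D ∧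
    ∀ᶠ N : ℕ in atTop, y N = u N * (MA N + (2 * N - 1)) := by
  obtain ⟨D, K⟩ := kc (L := 6) (by norm_num) (φ := F2aux.ph)
    (fun m hm => F2aux.nice CONV_proof AREA_proof m hm)
    (fun w => by unfold F2aux.ph; positivity)
  refine ⟨D, _, K, ?_⟩
  filter_upwards [eventually_ge_atTop 2] with N hN
  rw [← F2aux.mean_eq CONV_proof f2a N hN, u_eq hN]
  have := card_KP_pos hN
  field_simp

theorem kc_width : ∃ D, ∃ y : ℕ → ℝ, Kc y D ∧
    ∀ᶠ N : ℕ in atTop, y N = u N * (2 * MW N) := by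
  obtain ⟨D, K⟩ := kc (L := 6) (by norm_num) (φ := fun w => (bx w : ℝ))
    (fun m hm => F3x.nice BOX_proof m hm) (fun w => Nat.cast_nonneg _)
  refine ⟨D, _, K, ?_⟩
  filter_upwards [eventually_ge_atTop 2] with N hN
  rw [← F3x.mean_eq CONV_proof SWAP_proof hN, u_eq hN]
  have := card_KP_pos hN
  field_simp

lemma root : Tendsto (fun N : ℕ =>
    ({f : ZMod (2 * N) → ℤ × ℤ | IsLoop (2 * N) f}.ncard : ℝ) ^ (1 / (2 * (N : ℝ)))) atTop
    (𝓝 H981.mu) := by
  obtain ⟨hmu, K, hK, h⟩ := bnd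
  have hmu0 : (0 : ℝ) < H981.mu := by linarith
  have hl : Tendsto (fun N : ℕ => Real.log
      ({f : ZMod (2 * N) → ℤ × ℤ | IsLoop (2 * N) f}.ncard : ℝ) / (2 * (N : ℝ))) atTop
      (𝓝 (Real.log H981.mu)) := by
    have h1 : Filter.Tendsto (fun x : ℝ => (Real.log x) ^ 9 / x) Filter.atTop (nhds 0) :=
      (Real.isLittleO_pow_log_id_atTop (n := 9)).tendsto_div_nhds_zero
    have hx : Tendsto (fun N : ℕ => 2 * (N : ℝ)) atTop atTop :=
      (tendsto_natCast_atTop_atTop (R := ℝ)).const_mul_atTop (by norm_num)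
    have h2 := h1.comp hx
    have h3 : Tendsto (fun N : ℕ => |Real.log H981.mu| * (2 * (N : ℝ))⁻¹ +
        K * ((Real.log (2 * (N : ℝ))) ^ 9 / (2 * (N : ℝ)))) atTop
        (𝓝 (|Real.log H981.mu| * 0 + K * 0)) :=
      (hx.inv_tendsto_atTop.const_mul _).add (h2.const_mul K)
    rw [mul_zero, mul_zero, add_zero] at h3
    rw [tendsto_iff_norm_sub_tendsto_zero]
    refine squeeze_zero' (Eventually.of_forall fun _ => norm_nonneg _) ?_ h3
    filter_upwards [eventually_ge_atTop 2] with N hN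
    have hN' : (2 : ℝ) ≤ N := by exact_mod_cast hN
    obtain ⟨n, hn⟩ : ∃ n, n = 2 * N - 1 := ⟨_, rfl⟩
    have h4 := h (2 * N - 1) (by omega) (by omega)
    rw [(CONV_proof N hN).2.1]
    rw [← hn] at h4 ⊢
    have hc := card_KP_pos hN
    rw [← hn] at hc
    have hcast : (n : ℝ) = 2 * N - 1 := by
      have : n + 1 = 2 * N := by omega
      have h' : ((n + 1 : ℕ) : ℝ) = ((2 * N : ℕ) : ℝ) := by rw [this]
      push_cast at h'
      linarith
    have hpn : 0 < H981.mu ^ n := by positivity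
    have l1 := Real.log_le_log (by positivity) h4.1
    have l2 := Real.log_le_log hc h4.2
    rw [Real.log_mul hpn.ne' (Real.exp_pos _).ne', Real.log_pow, Real.log_exp] at l1 l2
    have hlog : Real.log (n : ℝ) ≤ Real.log (2 * (N : ℝ)) :=
      Real.log_le_log (by rw [hcast]; linarith) (by rw [hcast]; linarith)
    have hlog0 : 0 ≤ Real.log (n : ℝ) := Real.log_natCast_nonneg _
    have hpow : K * Real.log (n : ℝ) ^ 9 ≤ K * Real.log (2 * (N : ℝ)) ^ 9 := by gcongr
    rw [hcast] at l1 l2 hpow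
    have hd : (0 : ℝ) < 2 * N := by linarith
    have a1 := neg_abs_le (Real.log H981.mu)
    have a2 := le_abs_self (Real.log H981.mu)
    have e : Real.log ((KP n).card : ℝ) / (2 * (N : ℝ)) - Real.log H981.mu =
        (Real.log ((KP n).card : ℝ) - 2 * N * Real.log H981.mu) / (2 * N) := by
      field_simp
    have e2 : |Real.log H981.mu| * (2 * (N : ℝ))⁻¹ +
        K * ((Real.log (2 * (N : ℝ))) ^ 9 / (2 * (N : ℝ))) =
        (|Real.log H981.mu| + K * Real.log (2 * (N : ℝ)) ^ 9) / (2 * N) := by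
      field_simp
    rw [e, e2, Real.norm_eq_abs, abs_div, abs_of_pos hd]
    apply div_le_div_of_nonneg_right _ hd.le
    rw [abs_le]
    constructor <;> linarith
  have h5 := (Real.continuous_exp.tendsto _).comp hl
  rw [Real.exp_log hmu0] at h5
  refine h5.congr' ?_
  filter_upwards [eventually_ge_atTop 2] with N hN
  have hc := card_KP_pos hN
  have hc' : (0 : ℝ) < ({f : ZMod (2 * N) → ℤ × ℤ | IsLoop (2 * N) f}.ncard : ℝ) := by
    rw [(CONV_proof N hN).2.1]
    exact hc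
  simp only [Function.comp]
  rw [Real.rpow_def_of_pos hc']
  congr 1
  ring

end Pool.Agent.R945.SJ
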